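import Pool.Agent.Helper93.KS.St2

/-!
# Project KS part 2 (MP_77e955_nt): module RNL
-/

set_option autoImplicit false

noncomputable section

namespace Pool.Agent.Helper65.KS

open Finset Filter Topology Pool.Agent.Helper93.KS
open Pool.Agent.Helper15.AB (SP StML)
open Pool.Agent.Helper9.TW (gm)
open Pool.Agent.Helper93.KP (gk vk tk rn gn TK qk StRTS)

private lemma gk_iff (n r p : ℕ) : (p : ℤ) ∣ gk n (30 * r) ↔
    30 * (r : ZMod p) * n - (30 * (r : ZMod p)) ^ 2 - 1 = 0 := by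
  rw [← ZMod.intCast_zmod_eq_zero_iff_dvd]
  unfold gk
  push_cast
  exact Iff.rfl

private lemma unit_of (p : ℕ) (hp : p.Prime) (h7 : 7 ≤ p) : (60 : ZMod p) ≠ 0 ∧ (4 : ZMod p) ≠ 0 := by
  have key : (60 : ZMod p) ≠ 0 := by
    intro h
    have h' : ((60 : ℕ) : ZMod p) = 0 := by exact_mod_cast h
    rw [ZMod.natCast_eq_zero_iff] at h'
    have h2 : p ∣ 4 * (3 * 5) := by simpa using h'
    rcases (Nat.Prime.dvd_mul hp).1 h2 with h3 | h3
    · have := Nat.le_of_dvd (by norm_num) h3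
      omega
    · rcases (Nat.Prime.dvd_mul hp).1 h3 with h4 | h4
      · have := Nat.le_of_dvd (by norm_num) h4
        omega
      · have := Nat.le_of_dvd (by norm_num) h4
        omega
  refine ⟨key, fun h4 => key ?_⟩
  have e : (60 : ZMod p) = 15 * 4 := by norm_num
  rw [e, h4, mul_zero]

private lemma rn_card (n p : ℕ) [Fact p.Prime] (h7 : 7 ≤ p) :
    rn n p = ({x : ZMod p | x ^ 2 = (((n : ℤ) ^ 2 - 4 : ℤ) : ZMod p)}.toFinset).card := by
  obtain ⟨h60, h4⟩ := unit_of p Fact.out h7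
  unfold rn
  refine Finset.card_bij (fun r _ => 60 * (r : ZMod p) - n) ?_ ?_ ?_
  · intro r hr
    rw [Finset.mem_filter, gk_iff] at hr
    rw [Set.mem_toFinset]
    change (60 * (r : ZMod p) - n) ^ 2 = (((n : ℤ) ^ 2 - 4 : ℤ) : ZMod p)
    push_cast
    linear_combination -4 * hr.2
  · intro r hr s hs h
    rw [Finset.mem_filter, Finset.mem_range] at hr hs
    have h1 : (60 : ZMod p) * ((r : ZMod p) - s) = 0 := by linear_combination h
    have h2 : ((r : ℕ) : ZMod p) = (s : ZMod p) := by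
      have := (mul_eq_zero.mp h1).resolve_left h60
      exact sub_eq_zero.mp this
    rw [ZMod.natCast_eq_natCast_iff'] at h2
    rw [Nat.mod_eq_of_lt hr.1, Nat.mod_eq_of_lt hs.1] at h2
    exact h2
  · intro x hx
    rw [Set.mem_toFinset] at hx
    have hx' : x ^ 2 = (((n : ℤ) ^ 2 - 4 : ℤ) : ZMod p) := hx
    push_cast at hx'
    refine ⟨((x + n) * (60 : ZMod p)⁻¹).val, ?_, ?_⟩
    · rw [Finset.mem_filter, gk_iff, Finset.mem_range]
      refine ⟨ZMod.val_lt _, ?_⟩
      rw [ZMod.natCast_zmod_val]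
      have e : 60 * ((x + n) * (60 : ZMod p)⁻¹) = x + n := by
        field_simp
      have h5 : (4 : ZMod p) * (30 * ((x + n) * (60 : ZMod p)⁻¹) * n -
          (30 * ((x + n) * (60 : ZMod p)⁻¹)) ^ 2 - 1) = 0 := by
        generalize (x + n) * (60 : ZMod p)⁻¹ = z at e
        have e2 : x = 60 * z - n := by linear_combination -e
        rw [e2] at hx'
        linear_combination -hx'
      exact (mul_eq_zero.mp h5).resolve_left h4
    · rw [ZMod.natCast_zmod_val]
      have e : 60 * ((x + n) * (60 : ZMod p)⁻¹) = x + n := by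
        field_simp
      rw [e]
      ring

/-- MODULE RNL. -/
theorem hRNL : StRNL := by
  intro n p hp h7 hd
  have : Fact p.Prime := ⟨hp⟩
  have h2 : p ≠ 2 := by omega
  have h1 := legendreSym.card_sqrts p h2 ((n : ℤ) ^ 2 - 4)
  rw [← rn_card n p h7, jacobiSym.legendreSym.to_jacobiSym] at h1
  unfold sx
  rw [if_neg hd]
  have h3 : ((rn n p : ℤ) : ℝ) = ((jacobiSym ((n : ℤ) ^ 2 - 4) p + 1 : ℤ) : ℝ) := by
    exact_mod_cast h1
  push_cast at h3
  rw [h3]
  ring

end Pool.Agent.Helper65.KS
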